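import Pool.Agent.MP_75da70_an.H8.IDefs

/-
Shrinking neighbourhoods to bounded order: a transfinite closure argument in Hilbert space.
-/

namespace Pool.Agent.MP_75da70_an.H8

open Filter Topology Set H7 Cardinal
open scoped InnerProductSpace

theorem hstar_step {X : Type} (op : Finset X → Set X) (hop : ∀ s, (op s).Countable) (Y : Set X)
    {κ : Cardinal} (hκ : ℵ₀ ≤ κ) (hY : #Y ≤ κ) :
    #(Y ∪ ⋃ s : {s : Finset X // (s : Set X) ⊆ Y}, op s.1 : Set X) ≤ κ := by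
  classical
  have h1 : #{s : Finset X // (s : Set X) ⊆ Y} ≤ κ := by
    refine (mk_le_of_injective (f := fun s : {s : Finset X // (s : Set X) ⊆ Y} =>
      s.1.subtype (· ∈ Y)) fun s s' h => Subtype.ext ?_).trans ?_
    · rw [← Finset.subtype_map_of_mem (p := (· ∈ Y)) s.2,
        ← Finset.subtype_map_of_mem (p := (· ∈ Y)) s'.2]
      exact congrArg _ h
    · rcases finite_or_infinite Y with h | h
      · exact mk_le_aleph0.trans hκ
      · exact (mk_finset_of_infinite Y).trans_le hY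
  refine (mk_union_le _ _).trans ((add_le_add hY ((mk_iUnion_le _).trans ((mul_le_mul' h1
    (ciSup_le' fun s => (hop s.1).le_aleph0.trans hκ)).trans (mul_eq_self hκ).le))).trans
    (add_eq_self hκ).le)

/-- closure under finitary operations with countably many values. -/
theorem hstar_cl {X : Type} (op : Finset X → Set X) (hop : ∀ s, (op s).Countable) :
    ∃ cl : Set X → Set X, Monotone cl ∧ (∀ Y, Y ⊆ cl Y) ∧
      (∀ Y (s : Finset X), (s : Set X) ⊆ cl Y → op s ⊆ cl Y) ∧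
      ∀ (Y : Set X) (κ : Cardinal), ℵ₀ ≤ κ → #Y ≤ κ → #(cl Y) ≤ κ := by
  let st : Set X → Set X := fun Y => Y ∪ ⋃ s : {s : Finset X // (s : Set X) ⊆ Y}, op s.1
  have hm : Monotone st := fun Y Y' h => union_subset_union h
    (iUnion_subset fun s => subset_iUnion_of_subset ⟨s.1, s.2.trans h⟩ subset_rfl)
  have hn : ∀ Y, Monotone fun n => st^[n] Y := fun Y => monotone_nat_of_le_succ fun n => by
    rw [Function.iterate_succ_apply']; exact subset_union_left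
  refine ⟨fun Y => ⋃ n, st^[n] Y, fun Y Y' h => iUnion_mono fun n => hm.iterate n h,
    fun Y => subset_iUnion_of_subset 0 subset_rfl, fun Y s hs => ?_, fun Y κ hκ hY => ?_⟩
  · have : ∀ x : s, ∃ n, x.1 ∈ st^[n] Y := fun x => mem_iUnion.1 (hs x.2)
    choose n hn' using this
    obtain ⟨m, hm'⟩ := (finite_range n).bddAbove
    refine subset_iUnion_of_subset (m + 1) ?_
    rw [Function.iterate_succ_apply']
    exact subset_union_of_subset_right (subset_iUnion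
      (fun s : {s : Finset X // (s : Set X) ⊆ st^[m] Y} => op s.1)
      ⟨s, fun x hx => hn Y (hm' ⟨⟨x, hx⟩, rfl⟩) (hn' ⟨x, hx⟩)⟩) _
  · have : ∀ n, #(st^[n] Y) ≤ κ := fun n => by
      induction n with
      | zero => exact hY
      | succ n ih => rw [Function.iterate_succ_apply']; exact hstar_step op hop _ hκ ih
    exact (mk_iUnion_le _).trans ((mul_le_mul' (mk_nat.trans_le hκ) (ciSup_le' this)).trans
      (mul_eq_self hκ).le)

/-- an uncountable set is cut into smaller layers by a chain of closed sets. -/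
theorem hstar_strat {X S : Type} (ι : S → X) (hι : Function.Injective ι) (S' : Set S)
    (hS : ℵ₀ < #S') (op : Finset X → Set X) (hop : ∀ s, (op s).Countable) :
    ∃ (I : Type) (_ : LinearOrder I) (st : S → I) (O : I → Set X),
      (∀ β, #{γ | γ ∈ S' ∧ st γ = β} < #S') ∧
      (∀ β (s : Finset X), s.Nonempty → (s : Set X) ⊆ O β → op s ⊆ O β) ∧
      ∀ γ ∈ S', ∀ β, ι γ ∈ O β ↔ st γ < β := by
  classical
  obtain ⟨cl, h1, h2, h3, h4⟩ := hstar_cl op hop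
  obtain ⟨_, _, ho⟩ := exists_ord_eq_type_lt S'
  have : Nonempty S' := mk_ne_zero_iff.1 (aleph0_pos.trans hS).ne'
  let Z : S' → Set X := fun β => cl ((fun b : S' => ι b) '' Iic β)
  have hZ : Monotone Z := fun a b h => h1 (image_mono (Iic_subset_Iic.2 h))
  have hst : ∀ γ, ∃ β : S', γ ∈ S' → ι γ ∈ Z β ∧ ∀ β', ι γ ∈ Z β' → β ≤ β' := fun γ => by
    by_cases h : γ ∈ S'
    · have hne : {β | ι γ ∈ Z β}.Nonempty := ⟨⟨γ, h⟩, h2 _ ⟨⟨γ, h⟩, self_mem_Iic, rfl⟩⟩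
      exact ⟨wellFounded_lt.min _ hne, fun _ => ⟨wellFounded_lt.min_mem _ hne,
        fun β' h' => not_lt.1 (wellFounded_lt.not_lt_min {β | ι γ ∈ Z β} h')⟩⟩
    · exact ⟨Classical.arbitrary _, fun h' => absurd h' h⟩
  choose st hst using hst
  refine ⟨S', inferInstance, st, fun β => {x | ∃ β' < β, x ∈ Z β'}, fun β => ?_,
    fun β s hs h => ?_, fun γ hγ β => ⟨?_, fun h => ⟨_, h, (hst γ hγ).1⟩⟩⟩
  · refine lt_of_le_of_lt ?_ ((h4 ((fun b : S' => ι b) '' Iic β) _ (le_max_left _ _)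
      (mk_image_le.trans (le_max_right ℵ₀ #(Iic β)))).trans_lt
      (max_lt hS (mk_Iic_lt β ho hS.le)))
    exact mk_le_of_injective (f := fun γ : {γ | γ ∈ S' ∧ st γ = β} =>
      (⟨ι γ, hZ γ.2.2.le (hst γ γ.2.1).1⟩ : Z β)) fun a b h =>
      Subtype.ext (hι (congrArg Subtype.val h))
  · have : ∀ x : s, ∃ β' < β, x.1 ∈ Z β' := fun x => h x.2
    choose b hb hb' using this
    have : Nonempty s := hs.to_subtype
    obtain ⟨x, hx⟩ := Finite.exists_max b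
    exact fun y hy => ⟨b x, hb x, h3 _ s (fun z hz => hZ (hx ⟨z, hz⟩) (hb' ⟨z, hz⟩)) hy⟩
  · rintro ⟨β', h, h'⟩
    exact ((hst γ hγ).2 β' h').trans_lt h

section Hilbert

variable {S D H : Type} [NormedAddCommGroup H] [InnerProductSpace ℂ H] [CompleteSpace H]

theorem hstar_ulim (U : Ultrafilter D) (h : D → H) {c : ℝ} (hh : ∀ v, ‖h v‖ ≤ c) :
    ∃ k : H, ‖k‖ ≤ c ∧ ∀ t, Tendsto (fun v => ⟪t, h v⟫_ℂ) U (𝓝 ⟪t, k⟫_ℂ) := by
  obtain ⟨k, hk⟩ := exists_weak_ulim U h hh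
  refine ⟨k, ?_, fun t => ?_⟩
  · have h1 : ‖⟪k, k⟫_ℂ‖ ≤ c * ‖k‖ := le_of_tendsto (hk k).norm (Eventually.of_forall fun v =>
      (norm_inner_le_norm _ _).trans (mul_le_mul_of_nonneg_right (hh v) (norm_nonneg _)))
    rw [inner_self_eq_norm_sq_to_K, norm_pow, RCLike.norm_ofReal, abs_norm, sq] at h1
    obtain ⟨v⟩ := Filter.nonempty_of_neBot (U : Filter D)
    rcases (norm_nonneg k).eq_or_lt with h0 | h0
    · rw [← h0]; exact (norm_nonneg _).trans (hh v)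
    · exact le_of_mul_le_mul_right h1 h0
  · simpa only [RCLike.star_def, inner_conj_symm] using (hk t).star

/-- the countable output attached to a vector `t` and a threshold `η`. -/
theorem hstar_out (F : S → Filter D) (G : Filter D) (p : S → H) (h : D → H) {c : ℝ}
    (hh : ∀ v, ‖h v‖ ≤ c) (S' : Set S) (hG : ∀ O ∈ G, {γ | O ∉ F γ}.Finite)
    (hcount : ∀ U : Ultrafilter D, ↑U ≤ G →
      {γ | γ ∈ S' ∧ ¬ Tendsto (fun v => ⟪p γ, h v⟫_ℂ) U (𝓝 0)}.Countable) (t : H) (η : ℝ) :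
    ∃ Z : Set (S ⊕ H), Z.Countable ∧ ∀ γ ∈ S', Sum.inl γ ∉ Z →
      (∀ᶠ v in G ⊔ F γ, ‖⟪t, h v⟫_ℂ‖ < η) ∨
        ∃ k, Sum.inr k ∈ Z ∧ ‖k‖ ≤ c ∧ η ≤ ‖⟪t, k⟫_ℂ‖ ∧ ⟪p γ, k⟫_ℂ = 0 := by
  by_cases hO : ∀ᶠ v in G, ‖⟪t, h v⟫_ℂ‖ < η
  · refine ⟨Sum.inl '' _, ((hG _ hO).image _).countable, fun γ _ hγ => Or.inl ?_⟩
    exact eventually_sup.2 ⟨hO, by_contra fun h' => hγ ⟨γ, h', rfl⟩⟩
  · have : (G ⊓ 𝓟 {v | ¬ ‖⟪t, h v⟫_ℂ‖ < η}).NeBot := frequently_iff_neBot.1 (not_eventually.1 hO)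
    let U := Ultrafilter.of (G ⊓ 𝓟 {v | ¬ ‖⟪t, h v⟫_ℂ‖ < η})
    have hU := le_inf_iff.1 (Ultrafilter.of_le (G ⊓ 𝓟 {v | ¬ ‖⟪t, h v⟫_ℂ‖ < η}))
    obtain ⟨k, hk, hk'⟩ := hstar_ulim U h hh
    refine ⟨insert (Sum.inr k) (Sum.inl '' _), ((hcount U hU.1).image _).insert _,
      fun γ hγ hZ => Or.inr ⟨k, Or.inl rfl, hk, ge_of_tendsto (hk' t).norm ?_, ?_⟩⟩
    · filter_upwards [le_principal_iff.1 hU.2] with v hv using not_lt.1 hv
    · exact tendsto_nhds_unique (hk' _) (by_contra fun h' => hZ (Or.inr ⟨γ, ⟨hγ, h'⟩, rfl⟩))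

/-- the closed span of the vectors named by a set of indices and vectors. -/
noncomputable def hstarSp (p : S → H) (O : Set (S ⊕ H)) : Submodule ℂ H :=
  (Submodule.span ℂ (Sum.elim p id '' O)).topologicalClosure

instance (p : S → H) (O : Set (S ⊕ H)) : CompleteSpace (hstarSp p O) :=
  (Submodule.isClosed_topologicalClosure _).completeSpace_coe

omit [CompleteSpace H] in
theorem hstarSp_mem (p : S → H) {O : Set (S ⊕ H)} {x : S ⊕ H} (hx : x ∈ O) :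
    Sum.elim p id x ∈ hstarSp p O :=
  Submodule.le_topologicalClosure _ (Submodule.subset_span ⟨x, hx, rfl⟩)

/-- operations whose closed sets see nothing of the indices outside. -/
theorem hstar_op (F : S → Filter D) (G : Filter D) (p : S → H) (h : D → H) {c : ℝ} (hc : 0 ≤ c)
    (hh : ∀ v, ‖h v‖ ≤ c) (S' : Set S) (hG : ∀ O ∈ G, {γ | O ∉ F γ}.Finite)
    (hcount : ∀ U : Ultrafilter D, ↑U ≤ G →
      {γ | γ ∈ S' ∧ ¬ Tendsto (fun v => ⟪p γ, h v⟫_ℂ) U (𝓝 0)}.Countable) :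
    ∃ op : Finset (S ⊕ H) → Set (S ⊕ H), (∀ s, (op s).Countable) ∧ ∀ O : Set (S ⊕ H),
      (∀ s : Finset (S ⊕ H), s.Nonempty → (s : Set (S ⊕ H)) ⊆ O → op s ⊆ O) →
      ∀ γ ∈ S', Sum.inl γ ∉ O →
        Tendsto (fun v => ⟪(hstarSp p O).starProjection (p γ), h v⟫_ℂ) (G ⊔ F γ) (𝓝 0) := by
  choose Z hZ hZ' using hstar_out F G p h hh S' hG hcount
  have hd : ∀ s : Finset (S ⊕ H), ∃ Q : Set H, Q.Countable ∧
      (Submodule.span ℂ (Sum.elim p id '' (s : Set (S ⊕ H))) : Set H) ⊆ closure Q := fun s =>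
    (s.finite_toSet.image _).isSeparable.span
  choose Q hQ hQ' using hd
  refine ⟨fun s => ⋃ t ∈ Q s, ⋃ n : ℕ, Z t (1 / (n + 1)),
    fun s => (hQ s).biUnion fun t _ => countable_iUnion fun n => hZ _ _, fun O hO γ hγ hγO => ?_⟩
  rcases O.eq_empty_or_nonempty with rfl | ⟨x₀, hx₀⟩
  · have : (hstarSp p ∅).starProjection (p γ) = 0 := by
      simp [hstarSp]
    simp only [this, inner_zero_left]
    exact tendsto_const_nhds
  rw [Metric.tendsto_nhds]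
  intro δ hδ
  obtain ⟨n, hn⟩ := exists_nat_one_div_lt (half_pos hδ)
  have hη : (0 : ℝ) < 1 / (n + 1) := by positivity
  set y := (hstarSp p O).starProjection (p γ) with hy
  obtain ⟨s, t, hs, hsO, ht, hyt⟩ : ∃ (s : Finset (S ⊕ H)) (t : H), s.Nonempty ∧
      (s : Set (S ⊕ H)) ⊆ O ∧ t ∈ Q s ∧ ‖y - t‖ < 1 / (n + 1) / (c + 1) := by
    classical
    have h1 : y ∈ closure (Submodule.span ℂ (Sum.elim p id '' O) : Set H) :=
      (hstarSp p O).starProjection_apply_mem (p γ)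
    have h2 : (Submodule.span ℂ (Sum.elim p id '' O) : Set H) ⊆
        closure (⋃ s : {s : Finset (S ⊕ H) // s.Nonempty ∧ (s : Set (S ⊕ H)) ⊆ O}, Q s.1) := by
      intro z hz
      obtain ⟨T, hT, hz⟩ := Submodule.mem_span_finite_of_mem_span hz
      obtain ⟨s, hs, rfl⟩ := Finset.subset_set_image_iff.1 hT
      refine closure_mono (subset_iUnion
        (fun s : {s : Finset (S ⊕ H) // s.Nonempty ∧ (s : Set (S ⊕ H)) ⊆ O} => Q s.1)
        ⟨insert x₀ s, Finset.insert_nonempty _ _, by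
          rw [Finset.coe_insert]; exact insert_subset hx₀ hs⟩) (hQ' _ ?_)
      refine Submodule.span_mono ?_ hz
      rw [Finset.coe_image, Finset.coe_insert]
      exact image_mono (subset_insert _ _)
    obtain ⟨t, ht, hd⟩ := Metric.mem_closure_iff.1 (closure_minimal h2 isClosed_closure h1)
      (1 / (n + 1) / (c + 1)) (by positivity)
    obtain ⟨s, ht⟩ := mem_iUnion.1 ht
    exact ⟨s.1, t, s.2.1, s.2.2, ht, by rwa [← dist_eq_norm]⟩
  have hsm : ∀ k : H, ‖k‖ ≤ c → ‖⟪y - t, k⟫_ℂ‖ < 1 / (n + 1) := fun k hk => by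
    refine (norm_inner_le_norm _ _).trans_lt ?_
    rw [lt_div_iff₀ (by positivity)] at hyt
    exact lt_of_le_of_lt (mul_le_mul_of_nonneg_left (by linarith) (norm_nonneg _)) hyt
  have hsub : Z t (1 / (n + 1)) ⊆ O := (subset_iUnion₂_of_subset t ht
    (subset_iUnion (fun n : ℕ => Z t (1 / (n + 1))) n)).trans (hO s hs hsO)
  rcases hZ' t _ γ hγ (fun h' => hγO (hsub h')) with h1 | ⟨k, h1, h2, h3, h4⟩
  · filter_upwards [h1] with v hv
    have := norm_add_le ⟪y - t, h v⟫_ℂ ⟪t, h v⟫_ℂ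
    rw [← inner_add_left, sub_add_cancel] at this
    rw [dist_zero_right]
    linarith [hsm _ (hh v)]
  · have h5 := hsm k h2
    rw [inner_sub_left, hy, Submodule.inner_starProjection_left_eq_right,
      Submodule.starProjection_eq_self_iff.2 (show k ∈ _ from hstarSp_mem p (hsub h1)), h4,
      zero_sub, norm_neg] at h5
    exact absurd h5 (not_lt.2 h3)

theorem hstar_countable (F : S → Filter D)
    (hsep : ∀ γ, ∃ B ∈ F γ, ∀ γ', γ' ≠ γ → Bᶜ ∈ F γ') {S' : Set S} (hS : S'.Countable) :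
    ∃ W : S → Set D, (∀ γ ∈ S', W γ ∈ F γ) ∧ ∀ (v : D) (T : Finset S),
      (∀ γ ∈ T, γ ∈ S' ∧ v ∈ W γ) → T.card ≤ 1 := by
  choose B hB hB' using hsep
  obtain ⟨f, hf⟩ := countable_iff_exists_injOn.1 hS
  refine ⟨fun γ => B γ ∩ ⋂ γ' ∈ S' ∩ f ⁻¹' Iio (f γ), (B γ')ᶜ, fun γ _ => inter_mem (hB γ) ?_,
    fun v T hT => Finset.card_le_one.2 fun a ha b hb => ?_⟩
  · refine (biInter_mem (((finite_Iio (f γ)).subset
      (image_subset_iff.2 inter_subset_right)).of_finite_image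
      (hf.mono inter_subset_left))).2 fun γ' h' => hB' γ' γ ?_
    rintro rfl
    exact lt_irrefl (f γ) h'.2
  · refine hf (hT a ha).1 (hT b hb).1 (le_antisymm (not_lt.1 fun h => ?_) (not_lt.1 fun h => ?_))
    · exact mem_iInter₂.1 (hT a ha).2.2 b ⟨(hT b hb).1, h⟩ (hT b hb).2.1
    · exact mem_iInter₂.1 (hT b hb).2.2 a ⟨(hT a ha).1, h⟩ (hT a ha).2.1

theorem hstar_ind (F : S → Filter D) (G : Filter D) (A : S → Set D) (N : ℕ) (p : S → H)
    {c ε : ℝ} (hε : 0 < ε) (hc : 0 ≤ c) (hp : ∀ γ, ‖p γ‖ ≤ c) (hA : ∀ γ, A γ ∈ F γ)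
    (hN : ∀ T : Finset S, T.card = N + 1 → {v | ∀ γ ∈ T, v ∈ A γ}.Finite)
    (hG : ∀ O ∈ G, {γ | O ∉ F γ}.Finite)
    (hsep : ∀ γ, ∃ B ∈ F γ, ∀ γ', γ' ≠ γ → Bᶜ ∈ F γ') (S' : Set S) :
    ∀ h : D → H, (∀ v, ‖h v‖ ≤ c) →
      (∀ γ ∈ S', ∀ ε' < ε, ∀ᶠ v in F γ, ε' ≤ ‖⟪p γ, h v⟫_ℂ‖) →
      (∀ U : Ultrafilter D, ↑U ≤ G →
        {γ | γ ∈ S' ∧ ¬ Tendsto (fun v => ⟪p γ, h v⟫_ℂ) U (𝓝 0)}.Countable) →
      ∃ W : S → Set D, (∀ γ ∈ S', W γ ∈ F γ) ∧ ∀ (v : D) (T : Finset S),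
        (∀ γ ∈ T, γ ∈ S' ∧ v ∈ W γ) →
          (T.card : ℝ) ≤ (N + 1) * (1 + 4 * c ^ 2 * ‖h v‖ ^ 2 / ε ^ 2) := by
  classical
  induction S' using (InvImage.wf (fun S' : Set S => #S') Cardinal.lt_wf).induction with
  | h S' ih =>
  intro h hh hbig hcount
  have hone : ∀ x : H, (1 : ℝ) ≤ (N + 1) * (1 + 4 * c ^ 2 * ‖x‖ ^ 2 / ε ^ 2) := fun x =>
    one_le_mul_of_one_le_of_one_le (by linarith [(Nat.cast_nonneg N : (0 : ℝ) ≤ N)])
      (le_add_of_nonneg_right (by positivity))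
  rcases le_or_gt #S' ℵ₀ with hS | hS
  · obtain ⟨W, h1, h2⟩ := hstar_countable F hsep (le_aleph0_iff_set_countable.1 hS)
    exact ⟨W, h1, fun v T hT => le_trans (by exact_mod_cast h2 v T hT) (hone _)⟩
  obtain ⟨op, hop, hkey⟩ := hstar_op F G p h hc hh S' hG hcount
  obtain ⟨I, _, st, O, h1, h2, h3⟩ := hstar_strat Sum.inl Sum.inl_injective S' hS
    (fun s : Finset (S ⊕ H) => op s ∪
      (fun v => Sum.inr (h v)) '' {v | s.toLeft.card = N + 1 ∧ ∀ γ ∈ s.toLeft, v ∈ A γ})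
    fun s => (hop s).union (Countable.image (by
      by_cases hs : s.toLeft.card = N + 1
      · exact ((hN _ hs).subset fun v hv => hv.2).countable
      · simp [hs]) _)
  let h' : I → D → H := fun β v => (hstarSp p (O β))ᗮ.starProjection (h v)
  have e : ∀ β γ v, ⟪p γ, h' β v⟫_ℂ =
      ⟪p γ, h v⟫_ℂ - ⟪(hstarSp p (O β)).starProjection (p γ), h v⟫_ℂ := fun β γ v => by
    rw [Submodule.inner_starProjection_left_eq_right, ← inner_sub_right,
      ← Submodule.starProjection_orthogonal_val]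
  have key : ∀ γ ∈ S', Tendsto (fun v => ⟪(hstarSp p (O (st γ))).starProjection (p γ), h v⟫_ℂ)
      (G ⊔ F γ) (𝓝 0) := fun γ hγ =>
    hkey _ (fun s hs hs' => subset_union_left.trans (h2 _ s hs hs')) γ hγ fun h0 =>
      lt_irrefl _ ((h3 γ hγ _).1 h0)
  have hbig' : ∀ γ ∈ S', ∀ ε' < ε, ∀ᶠ v in F γ, ε' ≤ ‖⟪p γ, h' (st γ) v⟫_ℂ‖ := by
    intro γ hγ ε' hε'
    filter_upwards [hbig γ hγ ((ε' + ε) / 2) (by linarith), Metric.tendsto_nhds.1
      ((key γ hγ).mono_left le_sup_right) ((ε - ε') / 2) (by linarith)] with v h4 h5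
    rw [dist_zero_right] at h5
    rw [e]
    linarith [norm_sub_norm_le ⟪p γ, h v⟫_ℂ
      ⟪(hstarSp p (O (st γ))).starProjection (p γ), h v⟫_ℂ]
  have hle : ∀ β v, ‖h' β v‖ ≤ ‖h v‖ := fun β v => Submodule.norm_starProjection_apply_le _ _
  choose W' hW' hW'' using fun β => ih {γ | γ ∈ S' ∧ st γ = β} (h1 β) (h' β)
    (fun v => (hle β v).trans (hh v)) (fun γ hγ => hγ.2 ▸ hbig' γ hγ.1) fun U hU =>
      (hcount U hU).mono fun γ hγ => And.intro hγ.1.1 fun h4 => hγ.2 (by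
        have := h4.sub ((key γ hγ.1.1).mono_left (hU.trans le_sup_left))
        simpa only [← hγ.1.2, e, sub_zero] using this)
  refine ⟨fun γ => {v | v ∈ W' (st γ) γ ∧ v ∈ A γ ∧ ε / 2 ≤ ‖⟪p γ, h v⟫_ℂ‖ ∧
    ε / 2 ≤ ‖⟪p γ, h' (st γ) v⟫_ℂ‖}, fun γ hγ => ?_, fun v T hT => ?_⟩
  · filter_upwards [hW' _ γ ⟨hγ, rfl⟩, hA γ, hbig γ hγ _ (half_lt_self hε),
      hbig' γ hγ _ (half_lt_self hε)] with v a b c d using ⟨a, b, c, d⟩
  rcases T.eq_empty_or_nonempty with rfl | hne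
  · exact le_trans (by simp) (hone _)
  obtain ⟨γ₀, hγ₀, hmax⟩ := T.exists_max_image st hne
  have hnew := hW'' (st γ₀) v (T.filter fun γ => st γ = st γ₀) fun γ hγ => by
    obtain ⟨h4, h5⟩ := Finset.mem_filter.1 hγ
    exact ⟨⟨(hT γ h4).1, h5⟩, h5 ▸ (hT γ h4).2.1⟩
  have hold : ∀ γ ∈ T.filter fun γ => ¬ st γ = st γ₀, γ ∈ T ∧ Sum.inl γ ∈ O (st γ₀) :=
    fun γ hγ => by
      obtain ⟨h4, h5⟩ := Finset.mem_filter.1 hγ
      exact ⟨h4, (h3 γ (hT γ h4).1 _).2 (lt_of_le_of_ne (hmax γ h4) h5)⟩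
  rw [← Finset.card_filter_add_card_filter_not (s := T) fun γ => st γ = st γ₀, Nat.cast_add]
  generalize (T.filter fun γ => ¬ st γ = st γ₀) = T' at hold
  have hN1 : (0 : ℝ) ≤ N + 1 := by positivity
  rcases T'.eq_empty_or_nonempty with rfl | ⟨γ₁, hγ₁⟩
  · rw [Finset.card_empty, Nat.cast_zero, add_zero]
    refine hnew.trans ?_
    have := hle (st γ₀) v
    gcongr
  have hT' : T'.card ≤ N := by
    by_contra hlt
    obtain ⟨T'', hs, hcard⟩ := Finset.exists_subset_card_eq (Nat.succ_le_of_lt (not_le.1 hlt))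
    have h4 : (T''.map ⟨Sum.inl, Sum.inl_injective⟩ : Finset (S ⊕ H)).toLeft = T'' := by
      ext; simp
    have h5 := h2 (st γ₀) (T''.map ⟨Sum.inl, Sum.inl_injective⟩)
      (Finset.map_nonempty.2 (Finset.card_pos.1 (by omega))) (fun x hx => by
        obtain ⟨γ, hγ, rfl⟩ := Finset.mem_map.1 hx
        exact (hold γ (hs hγ)).2)
      (Or.inr ⟨v, by rw [h4]; exact ⟨hcard, fun γ hγ => (hT γ (hold γ (hs hγ)).1).2.2.1⟩, rfl⟩)
    have h6 : h' (st γ₀) v = 0 := by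
      simp only [h']
      rw [Submodule.starProjection_orthogonal_val,
        Submodule.starProjection_eq_self_iff.2 (show h v ∈ _ from hstarSp_mem p h5), sub_self]
    have h7 := (hT γ₀ hγ₀).2.2.2.2
    rw [h6, inner_zero_right, norm_zero] at h7
    linarith
  have h4 := (hT γ₁ (hold γ₁ hγ₁).1).2.2.2.1
  rw [← Submodule.starProjection_eq_self_iff.2
    (show p γ₁ ∈ _ from hstarSp_mem p (hold γ₁ hγ₁).2),
    Submodule.inner_starProjection_left_eq_right] at h4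
  have h5 := h4.trans ((norm_inner_le_norm _ _).trans
    (mul_le_mul_of_nonneg_right (hp γ₁) (norm_nonneg _)))
  have h6 := (hstarSp p (O (st γ₀))).norm_sq_eq_add_norm_sq_starProjection (h v)
  have h7 : 1 + 4 * c ^ 2 * ‖h' (st γ₀) v‖ ^ 2 / ε ^ 2 ≤ 4 * c ^ 2 * ‖h v‖ ^ 2 / ε ^ 2 := by
    rw [h6, le_div_iff₀ (by positivity), add_mul, div_mul_cancel₀ _ (by positivity)]
    have := pow_le_pow_left₀ (half_pos hε).le h5 2
    simp only [h']
    nlinarith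
  have h8 : (T'.card : ℝ) ≤ N := by exact_mod_cast hT'
  have h9 := hnew.trans (mul_le_mul_of_nonneg_left h7 hN1)
  linarith

end Hilbert

theorem hstar {S D : Type} (F : S → Filter D) (G : Filter D) (A : S → Set D) (N : ℕ)
    (M : S → D → ℂ) {C ε : ℝ} (hε : 0 < ε) (hM : G2 M C)
    (hA : ∀ γ, A γ ∈ F γ)
    (hN : ∀ T : Finset S, T.card = N + 1 → {v | ∀ γ ∈ T, v ∈ A γ}.Finite)
    (hG : ∀ O ∈ G, {γ | O ∉ F γ}.Finite)
    (hsep : ∀ γ, ∃ B ∈ F γ, ∀ γ', γ' ≠ γ → Bᶜ ∈ F γ')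
    (hbig : ∀ γ, ∀ ε' < ε, ∀ᶠ v in F γ, ε' ≤ ‖M γ v‖)
    (hcount : ∀ U : Ultrafilter D, ↑U ≤ G → {γ | ¬ Tendsto (M γ) U (𝓝 0)}.Countable) :
    ∃ W : S → Set D, (∀ γ, W γ ∈ F γ) ∧ ∀ (v : D) (T : Finset S), (∀ γ ∈ T, v ∈ W γ) →
      (T.card : ℝ) ≤ (N + 1) * (1 + 4 * C ^ 2 / ε ^ 2) := by
  obtain ⟨H, _, _, _, p, h, hp, hh, e⟩ := hM.hilbert
  obtain ⟨W, h1, h2⟩ := hstar_ind F G A N p hε (Real.sqrt_nonneg C)
    (fun γ => Real.le_sqrt_of_sq_le (hp γ)) hA hN hG hsep univ h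
    (fun v => Real.le_sqrt_of_sq_le (hh v)) (fun γ _ => by simpa only [e] using hbig γ)
    fun U hU => by simpa only [e, mem_univ, true_and] using hcount U hU
  refine ⟨W, fun γ => h1 γ trivial, fun v T hT => (h2 v T fun γ hγ => ⟨trivial, hT γ hγ⟩).trans ?_⟩
  have hC : 0 ≤ C := (sq_nonneg _).trans (hh v)
  rw [Real.sq_sqrt hC, sq C, ← mul_assoc]
  have := hh v
  gcongr

end Pool.Agent.MP_75da70_an.H8
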